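import Pool.Agent.Lib.MP_733696_ag.Fibre

/-!
# Induced metrics on Albanese fibres under semi-positive holomorphic sectional curvature

Let `(X, g)` be a compact Kähler manifold with semi-positive holomorphic sectional curvature,
`π : X' → X` a finite étale cover (or just a holomorphic local biholomorphism from a compact
complex manifold `X'`), with the metric `π^* g` on `X'`, and let `α : X' → V / Λ` be a holomorphic
map to a complex torus, for instance the Albanese map of `X'`.  Let `Z` be a smooth fibre of `α`:
a complex manifold with a holomorphic embedding `ι : Z → X'` whose image is `α⁻¹(a)`.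
Then the induced metric on `Z` is Kähler with semi-positive holomorphic sectional curvature.

The proof shows that every holomorphic one-form pulled back by `α` is parallel, by integrating a
Bochner type identity for the vector field dual to the form, so that the fibres of `α` are totally
geodesic.
-/

open scoped Manifold ContDiff Topology
open Set

namespace Pool.Agent.Results.MP_733696_ag.AlbaneseFibreHSC

open Pool.Agent.Lib.MP_733696_ag

universe u v

/-- The induced metric on every smooth fibre of every holomorphic map from a finite étale cover of
a compact Kähler manifold with semi-positive holomorphic sectional curvature to a complex torus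
(in particular of the Albanese map) has semi-positive holomorphic sectional curvature. -/
theorem result
    -- the compact complex manifold `X` with a Kähler metric `g` of semi-positive curvature
    {E : Type u} [NormedAddCommGroup E] [NormedSpace ℂ E] [FiniteDimensional ℂ E]
    {X : Type v} [TopologicalSpace X] [T2Space X] [CompactSpace X]
    [ChartedSpace E X] [IsManifold 𝓘(ℂ, E) ω X]
    (g : ∀ x : X, TangentSpace 𝓘(ℂ, E) x → TangentSpace 𝓘(ℂ, E) x → ℂ)
    (hg : IsKahlerMetric g) (hH : SemiPositiveHSC g)
    -- the finite étale cover `π : X' → X`
    {X' : Type v} [TopologicalSpace X'] [T2Space X'] [CompactSpace X']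
    [ChartedSpace E X'] [IsManifold 𝓘(ℂ, E) ω X']
    (π : X' → X) (hπ : IsHolImmersion (E := E) (F := E) π)
    -- the holomorphic map `α` from `X'` to the complex torus `V / Λ`
    {V : Type u} [NormedAddCommGroup V] [NormedSpace ℂ V] [FiniteDimensional ℂ V]
    (Λ : AddSubgroup V) [DiscreteTopology Λ]
    (α : X' → V ⧸ Λ) (hα : IsHolomorphicToTorus (E := E) Λ α)
    -- the smooth fibre `ι : Z → X'` of `α` over the point `a`
    (a : V ⧸ Λ)
    {F : Type u} [NormedAddCommGroup F] [NormedSpace ℂ F] [FiniteDimensional ℂ F]
    {Z : Type v} [TopologicalSpace Z] [ChartedSpace F Z] [IsManifold 𝓘(ℂ, F) ω Z]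
    (ι : Z → X') (hι : IsHolImmersion (E := E) (F := F) ι) (hemb : Topology.IsEmbedding ι)
    (hZ : range ι = α ⁻¹' {a}) :
    IsKahlerMetric (pullForm (F := F) ι (pullForm (F := E) π g)) ∧
      SemiPositiveHSC (pullForm (F := F) ι (pullForm (F := E) π g)) := by
  have h1 : IsKahlerMetric (pullForm (F := E) π g) := IsKahlerMetric.pull hg hπ
  have h2 : SemiPositiveHSC (pullForm (F := E) π g) := semiPositive_etale hg hH hπ
  exact ⟨IsKahlerMetric.pull h1 hι, semiPositive_fibre hα hι h1 h2 hemb hZ⟩

end Pool.Agent.Results.MP_733696_ag.AlbaneseFibreHSC
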